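import Pool.Agent.helper1.SOL.SpecN

set_option autoImplicit false

namespace Pool.Agent.SOL

open Pool.Agent.helper54.SOG Finset

open scoped BigOperators

theorem GLZ_flp_sub {n : ℕ} (i : Fin n) (x y : Vec n) : flp i (x - y) = flp i x - flp i y := by
  funext j
  simp only [flp, Pi.sub_apply]
  split_ifs <;> ring

theorem GLZ_swp_sub {n : ℕ} (a b : Fin n) (x y : Vec n) :
    swp a b (x - y) = swp a b x - swp a b y := rfl

theorem GLZ_flp_zero {n : ℕ} (i : Fin n) (x : Vec n) (h : x i = 0) : flp i x = x := by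
  funext j
  simp only [flp]
  split_ifs with hj
  · rw [hj, h]; simp
  · rfl

theorem GLZ_flp_flp {n : ℕ} (i : Fin n) (x : Vec n) : flp i (flp i x) = x := by
  funext j
  simp only [flp]
  split_ifs <;> simp

theorem GLZ_flp_ne {n : ℕ} (i j : Fin n) (x : Vec n) (h : i ≠ j) : flp j x i = x i := by
  simp [flp, h]

theorem GLZ_swp_ne {n : ℕ} (i a b : Fin n) (x : Vec n) (ha : i ≠ a) (hb : i ≠ b) :
    swp a b x i = x i := by
  simp [swp, Equiv.swap_apply_of_ne_of_ne ha hb]

theorem GLZ_swp_eq {n : ℕ} (a b : Fin n) (y : Vec n) (h : y a = y b) : swp a b y = y := by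
  funext j
  simp only [swp]
  rcases eq_or_ne j a with rfl | ha
  · rw [Equiv.swap_apply_left, h]
  · rcases eq_or_ne j b with rfl | hb
    · rw [Equiv.swap_apply_right, h]
    · rw [Equiv.swap_apply_of_ne_of_ne ha hb]

theorem GLZ_key {n : ℕ} {M : Type} [AddCommGroup M] (V : Set (Vec n)) (f : Vec n → M)
    (hflp : ∀ x ∈ V, ∀ i, flp i x ∈ V)
    (hadd : ∀ x ∈ V, ∀ y ∈ V, x - y ∈ V → f (x - y) = f x - f y)
    (i : Fin n) (x y : Vec n) (hx : x ∈ V) (hy : y ∈ V) (hxy : x - y ∈ V) (e : y i = x i) :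
    f x - f (flp i x) = f y - f (flp i y) := by
  have e1 : flp i x - (x - y) = flp i y := by
    funext j
    simp only [flp, Pi.sub_apply]
    split_ifs with hj
    · rw [hj, e]; ring
    · ring
  have h1 : f (flp i x - (x - y)) = f (flp i x) - f (x - y) := by
    apply hadd _ (hflp x hx i) _ hxy
    rw [e1]
    exact hflp y hy i
  rw [e1, hadd x hx y hy hxy] at h1
  rw [h1]
  abel

theorem GLZ_entries {n κ : ℕ} (x : Vec n) (hx : x ∈ TD n κ 0) (i : Fin n) :
    |x i| = 0 ∨ |x i| = 2 := by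
  have h1 := hx.1 i
  have h2 : |x i| ≠ 1 := by
    intro h
    have h3 : cnt x 1 = 0 := hx.2.2
    rw [cnt, Finset.card_eq_zero, Finset.filter_eq_empty_iff] at h3
    exact h3 (Finset.mem_univ i) h
  have h3 := abs_nonneg (x i)
  omega

theorem GLZ (hCNT : CNT_stmt) (hLX3 : LX3_stmt) (hLX4 : LX4_stmt) : GLZ_stmt := by
  intro n κ V M _ _ f hflp hswp hneg hodd hadd hO h1 h2
  classical
  obtain ⟨_, _, _, hTf, hTs, hTn, _, _⟩ := hCNT
  -- (B)
  have hB : ∀ i, ∀ x ∈ TD n κ 0, x i = 2 → ∀ j, j ≠ i →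
      f (flp j x) - f (flp i (flp j x)) = f x - f (flp i x) := by
    intro i x hx hxi j hj
    by_cases hxj : x j = 0
    · rw [GLZ_flp_zero j x hxj]
    · obtain ⟨y, hy, hxy, hyi, hyj⟩ := h1 x hx i j hj.symm (by rw [hxi]; norm_num) hxj
      rw [GLZ_key V f hflp hadd i x y (hO x hx) hy hxy hyi]
      apply GLZ_key V f hflp hadd i (flp j x) y (hO _ (hTf n κ 0 x j hx)) hy
      · have e := GLZ_flp_sub j x y
        rw [GLZ_flp_zero j y hyj] at e
        rw [← e]
        exact hflp _ hxy j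
      · rw [GLZ_flp_ne i j x hj.symm, hyi]
  have hC : ∀ i, ∀ x ∈ TD n κ 0, x i = 2 → ∀ a b, a ≠ i → b ≠ i → |x a| = 2 → |x b| ≠ 2 →
      f (swp a b x) - f (flp i (swp a b x)) = f x - f (flp i x) := by
    intro i x hx hxi a b ha hb hxa hxb
    have hxb0 : x b = 0 := by
      rcases GLZ_entries x hx b with h | h
      · exact abs_eq_zero.mp h
      · exact absurd h hxb
    have hxa0 : x a ≠ 0 := by
      intro h
      rw [h] at hxa
      norm_num at hxa
    have hab : a ≠ b := by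
      rintro rfl
      exact hxa0 hxb0
    obtain ⟨y, hy, hxy, hyi, hyab⟩ := h2 x hx i a b ha.symm hb.symm hab (by rw [hxi]; norm_num)
      hxa0 hxb0
    -- a version with y a = y b
    obtain ⟨y', hy', hxy', hyi', hyab'⟩ : ∃ y' ∈ V, x - y' ∈ V ∧ y' i = x i ∧ y' a = y' b := by
      rcases abs_eq_abs.mp hyab with h | h
      · exact ⟨y, hy, hxy, hyi, h⟩
      · refine ⟨flp b y, hflp y hy b, ?_, ?_, ?_⟩
        · have e := GLZ_flp_sub b x y
          rw [GLZ_flp_zero b x hxb0] at e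
          rw [← e]
          exact hflp _ hxy b
        · rw [GLZ_flp_ne i b y hb.symm, hyi]
        · rw [GLZ_flp_ne a b y hab]
          simp [flp, h]
    rw [GLZ_key V f hflp hadd i x y' (hO x hx) hy' hxy' hyi']
    apply GLZ_key V f hflp hadd i (swp a b x) y' (hO _ (hTs n κ 0 x a b hx)) hy'
    · have e := GLZ_swp_sub a b x y'
      rw [GLZ_swp_eq a b y' hyab'] at e
      rw [← e]
      exact hswp _ hxy' a b
    · rw [GLZ_swp_ne i a b x ha.symm hb.symm, hyi']
  have hD : ∀ i, ∀ x ∈ TD n κ 0, ∀ x' ∈ TD n κ 0, x i = 2 → x' i = 2 →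
      f x - f (flp i x) = f x' - f (flp i x') := by
    intro i
    apply hLX3 n κ 0 M (fun x => f x - f (flp i x)) i 2 2
    · intro x hx hxi j hj
      exact hB i x hx hxi j hj
    · intro x hx hxi a b ha hb hxa hxb
      exact hC i x hx hxi a b ha hb hxa hxb
    · intro x hx hxi a b ha hb hxa hxb hne
      exfalso
      rcases GLZ_entries x hx a with h | h
      · rcases GLZ_entries x hx b with h' | h'
        · exact hne (h.trans h'.symm)
        · exact hxb h'
      · exact hxa h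
  let T : Fin n → M := fun i =>
    if h : ∃ x, x ∈ TD n κ 0 ∧ x i = 2 then
      (1 / 4 : ℝ) • (f h.choose - f (flp i h.choose)) else 0
  have hT : ∀ x ∈ TD n κ 0, ∀ i, x i = 2 → f x - f (flp i x) = (4 : ℝ) • T i := by
    intro x hx i hxi
    have h : ∃ x, x ∈ TD n κ 0 ∧ x i = 2 := ⟨x, hx, hxi⟩
    have e : T i = (1 / 4 : ℝ) • (f h.choose - f (flp i h.choose)) := by
      simp only [T]
      rw [dif_pos h]
    rw [e, smul_smul]
    norm_num
    exact hD i x hx _ h.choose_spec.1 hxi h.choose_spec.2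
  refine ⟨T, hLX4 n κ 0 M f T (fun x hx => hodd x (hO x hx)) ?_⟩
  intro x hx i
  rcases GLZ_entries x hx i with h | h
  · have h0 : x i = 0 := abs_eq_zero.mp h
    rw [GLZ_flp_zero i x h0, h0]
    simp
  · rcases (abs_eq (by norm_num : (0 : ℤ) ≤ 2)).mp h with h | h
    · rw [hT x hx i h, h]
      norm_num
    · have h3 : flp i x i = 2 := by simp [flp, h]
      have h4 := hT (flp i x) (hTf n κ 0 x i hx) i h3
      rw [GLZ_flp_flp] at h4
      rw [h]
      have h5 : f x - f (flp i x) = -(f (flp i x) - f x) := by abel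
      rw [h5, h4, ← neg_smul]
      norm_num

end Pool.Agent.SOL
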