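import Pool.Agent.helper1.SOL.SpecN

set_option autoImplicit false

namespace Pool.Agent.SOL

open Pool.Agent.helper54.SOG Finset

open scoped BigOperators

section Core

variable {A : Type*} [AddCommGroup A]

theorem THS_core [DecidableEq A] (P : Finset A) (hneg : ∀ x ∈ P, -x ∈ P) (f : A → ℝ)
    (hodd : ∀ x ∈ P, f (-x) = -f x)
    (hst : ∀ x ∈ P, ∑ y ∈ P.filter (fun y => x - y ∈ P), f y =
      ((P.filter (fun y => x - y ∈ P)).card : ℝ) / 2 * f x) :
    ∀ x ∈ P, ∀ y ∈ P, x - y ∈ P → f (x - y) = f x - f y := by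
  set E : Finset (A × A) := (P ×ˢ P).filter (fun p => p.1 - p.2 ∈ P) with hE
  have memE : ∀ p : A × A, p ∈ E ↔ (p.1 ∈ P ∧ p.2 ∈ P) ∧ p.1 - p.2 ∈ P := by
    intro p
    rw [hE, Finset.mem_filter, Finset.mem_product]
  have sa : ∀ g : A → A → ℝ, ∑ p ∈ E, g p.1 p.2 = ∑ p ∈ E, g p.1 (p.1 - p.2) := by
    intro g
    refine Finset.sum_nbij' (fun p => (p.1, p.1 - p.2)) (fun p => (p.1, p.1 - p.2)) ?_ ?_ ?_ ?_ ?_
    · intro p hp
      rw [memE] at hp ⊢
      refine ⟨⟨hp.1.1, hp.2⟩, ?_⟩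
      simpa using hp.1.2
    · intro p hp
      rw [memE] at hp ⊢
      refine ⟨⟨hp.1.1, hp.2⟩, ?_⟩
      simpa using hp.1.2
    · intro p _
      ext <;> simp
    · intro p _
      ext <;> simp
    · intro p _
      simp
  have sb : ∀ g : A → A → ℝ, ∑ p ∈ E, g p.1 p.2 = ∑ p ∈ E, g p.2 p.1 := by
    intro g
    refine Finset.sum_nbij' (fun p => (p.2, p.1)) (fun p => (p.2, p.1)) ?_ ?_ ?_ ?_ ?_
    · intro p hp
      rw [memE] at hp ⊢
      refine ⟨⟨hp.1.2, hp.1.1⟩, ?_⟩
      have := hneg _ hp.2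
      simpa using this
    · intro p hp
      rw [memE] at hp ⊢
      refine ⟨⟨hp.1.2, hp.1.1⟩, ?_⟩
      have := hneg _ hp.2
      simpa using this
    · intro p _
      rfl
    · intro p _
      rfl
    · intro p _
      rfl
  have sE : ∀ g : A → A → ℝ, ∑ p ∈ E, g p.1 p.2 =
      ∑ x ∈ P, ∑ y ∈ P.filter (fun y => x - y ∈ P), g x y := by
    intro g
    rw [hE, Finset.sum_filter, Finset.sum_product]
    apply Finset.sum_congr rfl
    intro x _
    rw [Finset.sum_filter]
  set a : ℝ := ∑ p ∈ E, f p.1 * f p.1 with ha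
  have h1 : ∑ p ∈ E, f p.2 * f p.2 = a := by
    rw [ha, sb (fun x y => f x * f x)]
  have h2 : ∑ p ∈ E, f (p.1 - p.2) * f (p.1 - p.2) = a := by
    rw [← h1, sa (fun x y => f y * f y)]
  have h3 : ∑ p ∈ E, f p.1 * f p.2 = a / 2 := by
    rw [sE (fun x y => f x * f y), ha, sE (fun x y => f x * f x), Finset.sum_div]
    apply Finset.sum_congr rfl
    intro x hx
    rw [← Finset.mul_sum, hst x hx, Finset.sum_const, nsmul_eq_mul]
    ring
  have h4 : ∑ p ∈ E, f p.1 * f (p.1 - p.2) = a / 2 := by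
    rw [← h3, sa (fun x y => f x * f y)]
  have h5 : ∑ p ∈ E, f p.2 * f (p.1 - p.2) = -(a / 2) := by
    rw [← h4, sb (fun x y => f x * f (x - y)), ← Finset.sum_neg_distrib]
    apply Finset.sum_congr rfl
    intro p hp
    rw [memE] at hp
    have h := hodd _ hp.2
    rw [neg_sub] at h
    rw [h]
    ring
  have h6 : ∑ p ∈ E, (f p.1 - f p.2 - f (p.1 - p.2)) ^ 2 = 0 := by
    have e : ∀ p ∈ E, (f p.1 - f p.2 - f (p.1 - p.2)) ^ 2 =
        f p.1 * f p.1 + f p.2 * f p.2 + f (p.1 - p.2) * f (p.1 - p.2)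
        - 2 * (f p.1 * f p.2) - 2 * (f p.1 * f (p.1 - p.2)) + 2 * (f p.2 * f (p.1 - p.2)) := by
      intro p _
      ring
    rw [Finset.sum_congr rfl e, Finset.sum_add_distrib, Finset.sum_sub_distrib,
      Finset.sum_sub_distrib, Finset.sum_add_distrib, Finset.sum_add_distrib,
      ← Finset.mul_sum, ← Finset.mul_sum, ← Finset.mul_sum, h1, h2, h3, h4, h5, ← ha]
    ring
  intro x hx y hy hxy
  have h7 := (Finset.sum_eq_zero_iff_of_nonneg (fun p _ => sq_nonneg _)).1 h6 (x, y)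
    ((memE (x, y)).2 ⟨⟨hx, hy⟩, hxy⟩)
  have h8 : f x - f y - f (x - y) = 0 := by
    simpa using h7
  linarith

end Core

theorem THS (hSYA : SYA_stmt) : THS_stmt := by
  intro n m S S' ψ hfin hS hS'
  obtain ⟨y1, y2, y3, y4, y5, y6, y7, y8⟩ := hSYA n m S S' ψ hS hS'
  have hodd : ∀ x ∈ S, odp ψ (-x) = -odp ψ x := by
    intro x _
    unfold odp
    rw [neg_neg, ← smul_neg, neg_sub]
  refine ⟨hodd, ?_⟩
  set P : Finset (Vec n) := hfin.toFinset with hP
  have memP : ∀ x, x ∈ P ↔ x ∈ S := by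
    intro x
    rw [hP, Set.Finite.mem_toFinset]
  -- the star identity for F
  have star : ∀ j : Fin m, ∀ x ∈ S, ∑ y ∈ P.filter (fun y => x - y ∈ P), ((up ψ y j : ℤ) : ℝ) =
      ((P.filter (fun y => x - y ∈ P)).card : ℝ) / 2 * ((up ψ x j : ℤ) : ℝ) := by
    intro j x hx
    set N := P.filter (fun y => x - y ∈ P) with hN
    have memN : ∀ y, y ∈ N ↔ y ∈ S ∧ x - y ∈ S := by
      intro y
      rw [hN, Finset.mem_filter, memP, memP]
    have hinj : Set.InjOn (up ψ) (N : Set (Vec n)) := by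
      intro u hu v hv huv
      have hu' := (memN u).1 hu
      have hv' := (memN v).1 hv
      exact y8 u hu'.1 v hv'.1 huv
    have memI : ∀ z, z ∈ N.image (up ψ) ↔ z ∈ S' ∧ up ψ x - z ∈ S' := by
      intro z
      rw [Finset.mem_image]
      constructor
      · rintro ⟨y, hy, rfl⟩
        have hy' := (memN y).1 hy
        exact ⟨up_mem ψ hy'.1, (y1 x hx y hy'.1).2 hy'.2⟩
      · rintro ⟨hz, hxz⟩
        obtain ⟨y, hy, rfl⟩ := y7 z hz
        exact ⟨y, (memN y).2 ⟨hy, (y1 x hx y hy).1 hxz⟩, rfl⟩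
    have e1 : ∑ y ∈ N, ((up ψ y j : ℤ) : ℝ) = ∑ z ∈ N.image (up ψ), ((z j : ℤ) : ℝ) := by
      rw [Finset.sum_image hinj]
    have e2 : ∑ z ∈ N.image (up ψ), ((z j : ℤ) : ℝ) =
        ∑ z ∈ N.image (up ψ), (((up ψ x - z) j : ℤ) : ℝ) := by
      refine Finset.sum_nbij' (fun z => up ψ x - z) (fun z => up ψ x - z) ?_ ?_ ?_ ?_ ?_
      · intro z hz
        rw [memI] at hz ⊢
        refine ⟨hz.2, ?_⟩
        rw [sub_sub_cancel]
        exact hz.1
      · intro z hz
        rw [memI] at hz ⊢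
        refine ⟨hz.2, ?_⟩
        rw [sub_sub_cancel]
        exact hz.1
      · intro z _
        exact sub_sub_cancel _ _
      · intro z _
        exact sub_sub_cancel _ _
      · intro z _
        rw [sub_sub_cancel]
    have e3 : ∑ z ∈ N.image (up ψ), (((up ψ x - z) j : ℤ) : ℝ) =
        (N.card : ℝ) * ((up ψ x j : ℤ) : ℝ) - ∑ z ∈ N.image (up ψ), ((z j : ℤ) : ℝ) := by
      have : ∀ z ∈ N.image (up ψ), (((up ψ x - z) j : ℤ) : ℝ) =
          ((up ψ x j : ℤ) : ℝ) - ((z j : ℤ) : ℝ) := by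
        intro z _
        rw [Pi.sub_apply]
        push_cast
        ring
      rw [Finset.sum_congr rfl this, Finset.sum_sub_distrib, Finset.sum_const, nsmul_eq_mul,
        Finset.card_image_of_injOn hinj]
    rw [e1]
    rw [e3] at e2
    linarith
  have hnegP : ∀ x ∈ P, -x ∈ P := by
    intro x hx
    rw [memP] at hx ⊢
    exact hS.neg x hx
  intro x hx y hy hxy
  funext j
  have hod : ∀ x : Vec n, odp ψ x j =
      (1 / 2 : ℝ) * (((up ψ x j : ℤ) : ℝ) - ((up ψ (-x) j : ℤ) : ℝ)) := by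
    intro x
    simp [odp, cv]
  have key := THS_core P hnegP (fun x => odp ψ x j) ?_ ?_ x ((memP x).2 hx) y ((memP y).2 hy)
    ((memP _).2 hxy)
  · simpa using key
  · intro x hx
    have h := hodd x ((memP x).1 hx)
    show odp ψ (-x) j = -odp ψ x j
    rw [h]
    rfl
  · intro x hx
    have hxS := (memP x).1 hx
    have s1 := star j x hxS
    have s2 := star j (-x) (hS.neg x hxS)
    have r1 : ∑ y ∈ P.filter (fun y => -x - y ∈ P), ((up ψ y j : ℤ) : ℝ) =
        ∑ y ∈ P.filter (fun y => x - y ∈ P), ((up ψ (-y) j : ℤ) : ℝ) := by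
      refine Finset.sum_nbij' (fun z => -z) (fun z => -z) ?_ ?_ ?_ ?_ ?_
      · intro z hz
        rw [Finset.mem_filter] at hz ⊢
        refine ⟨hnegP z hz.1, ?_⟩
        have := hnegP _ hz.2
        rw [neg_sub, sub_neg_eq_add, add_comm] at this
        rw [sub_neg_eq_add]
        exact this
      · intro z hz
        rw [Finset.mem_filter] at hz ⊢
        refine ⟨hnegP z hz.1, ?_⟩
        have := hnegP _ hz.2
        rw [neg_sub] at this
        rw [sub_neg_eq_add, neg_add_eq_sub]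
        exact this
      · intro z _
        exact neg_neg z
      · intro z _
        exact neg_neg z
      · intro z _
        rw [neg_neg]
    have r2 : (P.filter (fun y => -x - y ∈ P)).card = (P.filter (fun y => x - y ∈ P)).card := by
      refine Finset.card_nbij' (fun z => -z) (fun z => -z) ?_ ?_ ?_ ?_
      · intro z hz
        rw [Finset.mem_coe, Finset.mem_filter] at hz ⊢
        refine ⟨hnegP z hz.1, ?_⟩
        have := hnegP _ hz.2
        rw [neg_sub, sub_neg_eq_add, add_comm] at this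
        rw [sub_neg_eq_add]
        exact this
      · intro z hz
        rw [Finset.mem_coe, Finset.mem_filter] at hz ⊢
        refine ⟨hnegP z hz.1, ?_⟩
        have := hnegP _ hz.2
        rw [neg_sub] at this
        rw [sub_neg_eq_add, neg_add_eq_sub]
        exact this
      · intro z _
        exact neg_neg z
      · intro z _
        exact neg_neg z
    rw [r1, r2] at s2
    have e : ∀ y ∈ P.filter (fun y => x - y ∈ P), odp ψ y j =
        (1 / 2 : ℝ) * ((up ψ y j : ℤ) : ℝ) - (1 / 2 : ℝ) * ((up ψ (-y) j : ℤ) : ℝ) := by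
      intro y _
      rw [hod y]
      ring
    rw [Finset.sum_congr rfl e, Finset.sum_sub_distrib, ← Finset.mul_sum, ← Finset.mul_sum, s1, s2,
      hod x]
    ring

end Pool.Agent.SOL
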